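import Pool.Agent.GD.Cls

/-!
# General d, block GAMMA: the numbers of the ordinary main points of a class

`ord_ge`: on the last level there are at least `kap e / 4 * n ^ (e - |K|)` ordinary points of every kind
`ord e A`, `A ⊂ range J`, `|K| < e` (`K = range J \ A`): the members of the clusters are a small share
(`1 / c i`, or a smaller power of `n`).
-/

set_option autoImplicit false
set_option linter.unusedSectionVars false

namespace Pool.Agent.GD.GA

open Finset

/-- All types of clusters. -/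
def cts (d J : ℕ) : Finset CT :=
  ((range (d + 1) ×ˢ (range J).powerset).image fun x => CT.pl x.1 x.2) ∪
    ((range J).powerset.image CT.b0 ∪ (range (J + 1)).image CT.br)

theorem mem_cts {d e i J : ℕ} (hi : i < J) {τ : CT} (h : τ.Ok d e i J) : τ ∈ cts d J := by
  unfold cts
  rw [mem_union, mem_union]
  rcases τ with ⟨k, S⟩ | S | r
  · left
    obtain ⟨h1, h2, h3, h4⟩ := h
    rw [mem_image]
    refine ⟨(k, S), ?_, rfl⟩
    rw [mem_product, mem_range, mem_powerset]
    refine ⟨?_, fun x hx => ?_⟩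
    · have h5 := Nat.div_le_self (d - i - 1) (e - 1)
      show k < d + 1
      omega
    · have := mem_Ico.1 (h3 hx)
      exact mem_range.2 this.2
  · right
    left
    obtain ⟨h1, h3, h4⟩ := h
    rw [mem_image]
    refine ⟨S, ?_, rfl⟩
    rw [mem_powerset]
    intro x hx
    have := mem_Ico.1 (h3 hx)
    exact mem_range.2 this.2
  · right
    right
    obtain ⟨h1, h2⟩ := h
    rw [mem_image]
    exact ⟨r, mem_range.2 (by omega), rfl⟩

/-- The number of the points `(e, A)` of an object. -/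
def gk (e : ℕ) (A : Finset ℕ) (k : Kd) : ℕ := k.pts.count (e, A)

theorem npt_eq (ms : Multiset Kd) (e : ℕ) (A : Finset ℕ) : npt ms e A = (ms.map (gk e A)).sum := by
  unfold npt gk
  rw [Multiset.count_bind]

theorem gk_ord (e : ℕ) (A : Finset ℕ) (x : ℕ) (B : Finset ℕ) :
    gk e A (.ord x B) = if (e, A) = (x, B) then 1 else 0 := by
  unfold gk Kd.pts
  rw [Multiset.count_singleton]

/-- The number of the points `(e, A)` is at most the number of the ordinary ones plus the number of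
the members of clusters. -/
theorem npt_le {d e J : ℕ} (ms : Multiset Kd) (A : Finset ℕ)
    (hmem : ∀ k ∈ ms, (∃ x B, k = .ord x B) ∨ ∃ i < J, ∃ τ : CT, τ.Ok d e i J ∧ k = τ.kd d e i J) :
    npt ms e A ≤ ms.count (.ord e A) + ∑ x ∈ range J ×ˢ cts d J,
      (if 0 < gk e A (x.2.kd d e x.1 J) then ms.count (x.2.kd d e x.1 J) *
        gk e A (x.2.kd d e x.1 J) else 0) := by
  classical
  rw [npt_eq, Finset.sum_multiset_map_count]
  simp only [smul_eq_mul]
  -- the distinct kinds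
  have h1 : ∑ k ∈ ms.toFinset, ms.count k * gk e A k ≤
      ∑ k ∈ insert (Kd.ord e A) ((range J ×ˢ cts d J).image fun x => x.2.kd d e x.1 J),
        ms.count k * gk e A k := by
    have h2 : ∑ k ∈ ms.toFinset, ms.count k * gk e A k =
        ∑ k ∈ ms.toFinset.filter (fun k => gk e A k ≠ 0), ms.count k * gk e A k := by
      rw [sum_filter_of_ne]
      intro k _ h3 h4
      apply h3
      rw [h4, mul_zero]
    rw [h2]
    refine sum_le_sum_of_subset fun k hk => ?_
    rw [mem_filter, Multiset.mem_toFinset] at hk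
    rw [mem_insert]
    rcases hmem k hk.1 with ⟨x, B, rfl⟩ | ⟨i, hi, τ, hτ, rfl⟩
    · left
      have h3 := hk.2
      rw [gk_ord] at h3
      split_ifs at h3 with h4
      · obtain ⟨h5, h6⟩ := Prod.mk.inj h4
        rw [h5, h6]
      · exact absurd rfl h3
    · right
      rw [mem_image]
      exact ⟨(i, τ), mem_product.2 ⟨mem_range.2 hi, mem_cts hi hτ⟩, rfl⟩
  refine h1.trans ?_
  by_cases h5 : Kd.ord e A ∈ (range J ×ˢ cts d J).image fun x => x.2.kd d e x.1 J
  · exfalso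
    obtain ⟨x, _, hx⟩ := mem_image.1 h5
    rcases x with ⟨i, τ⟩
    rcases τ with ⟨k, S⟩ | S | r <;> simp [CT.kd] at hx
  rw [sum_insert h5]
  refine add_le_add ?_ ?_
  · rw [gk_ord, if_pos rfl, mul_one]
  · have h6 : ∀ (s : Finset (ℕ × CT)) (f : Kd → ℕ), ∑ k ∈ s.image (fun x => x.2.kd d e x.1 J), f k ≤
        ∑ x ∈ s, f (x.2.kd d e x.1 J) := by
      intro s f
      induction s using Finset.induction_on with
      | empty => simp
      | insert a s ha ih =>
        rw [image_insert, sum_insert ha]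
        by_cases h7 : a.2.kd d e a.1 J ∈ s.image fun x => x.2.kd d e x.1 J
        · rw [insert_eq_of_mem h7]
          exact ih.trans (Nat.le_add_left _ _)
        · rw [sum_insert h7]
          exact Nat.add_le_add_left ih _
    refine (h6 _ _).trans (sum_le_sum fun x _ => ?_)
    split_ifs with h7
    · exact le_rfl
    · have h8 : gk e A (x.2.kd d e x.1 J) = 0 := by omega
      rw [h8, mul_zero]

/-- The members of the clusters. -/
theorem gk_cl_le (e : ℕ) (A : Finset ℕ) (dl i : ℕ) (As : List (Finset ℕ)) :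
    gk e A (.cl e dl i As) ≤ As.length := by
  unfold gk Kd.pts
  refine (Multiset.count_le_card _ _).trans ?_
  rw [Multiset.coe_card, List.length_map]

theorem mem_of_gk {e : ℕ} {A : Finset ℕ} {dl i : ℕ} {As : List (Finset ℕ)}
    (h : 0 < gk e A (.cl e dl i As)) : A ∈ As := by
  unfold gk Kd.pts at h
  have h1 := Multiset.count_pos.1 h
  rw [Multiset.mem_coe, List.mem_map] at h1
  obtain ⟨B, hB, hBe⟩ := h1
  have h2 := (Prod.mk.inj hBe).2
  rw [← h2]
  exact hB

theorem length_mbs_le (i J k : ℕ) (S : Finset ℕ) : (mbs i J k S).length ≤ k + 1 := by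
  unfold mbs
  split_ifs with h
  · simp
  · rw [List.length_cons, List.length_replicate]
    omega

theorem mem_mbs {i J k : ℕ} {S A : Finset ℕ} (h : A ∈ mbs i J k S) :
    A = (range J).erase i ∨ A = (range J).erase i \ S := by
  unfold mbs at h
  split_ifs at h with h1
  · right
    exact List.mem_singleton.1 h
  · rcases List.mem_cons.1 h with h2 | h2
    · exact Or.inl h2
    · exact Or.inr (List.eq_of_mem_replicate h2)

theorem compl_erase {i J : ℕ} (hi : i < J) : range J \ (range J).erase i = {i} := by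
  ext x
  simp only [mem_sdiff, mem_range, mem_erase, mem_singleton]
  omega

theorem compl_erase_sdiff {i J : ℕ} (hi : i < J) {S : Finset ℕ} (hS : S ⊆ Ico (i + 1) J) :
    range J \ ((range J).erase i \ S) = insert i S := by
  ext x
  simp only [mem_sdiff, mem_range, mem_erase, mem_insert]
  constructor
  · rintro ⟨h1, h2⟩
    by_cases hx : x = i
    · exact Or.inl hx
    · right
      by_contra h3
      exact h2 ⟨⟨hx, h1⟩, h3⟩
  · rintro (h | h)
    · subst h
      exact ⟨hi, fun h2 => h2.1.1 rfl⟩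
    · have h3 := mem_Ico.1 (hS h)
      exact ⟨h3.2, fun h2 => h2.2 h⟩

/-- The alternatives for a cluster with members `(e, A)`. -/
theorem cases_cl (P : Par) {i : ℕ} (hi : i < P.J) {τ : CT} (hτ : τ.Ok P.d P.e i P.J)
    {A : Finset ℕ} (hg : 0 < gk P.e A (τ.kd P.d P.e i P.J))
    (hA : (range P.J \ A).card < P.e) :
    gk P.e A (τ.kd P.d P.e i P.J) ≤ P.d ∧ 1 ≤ (range P.J \ A).card ∧
      ((∃ k S, τ = .pl k S ∧ i ∉ S ∧ range P.J \ A = insert i S) ∨
        τ.w P.e + (range P.J \ A).card + 1 ≤ P.e) := by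
  have hJ : P.J = P.d - P.e := rfl
  rcases τ with ⟨k, S⟩ | S | r
  · obtain ⟨h1, h2, h3, h4⟩ := hτ
    have h5 : A ∈ mbs i P.J k S := mem_of_gk hg
    have hiS : i ∉ S := fun h => by
      have := mem_Ico.1 (h3 h)
      omega
    refine ⟨?_, ?_, ?_⟩
    · refine (gk_cl_le _ _ _ _ _).trans ((length_mbs_le _ _ _ _).trans ?_)
      have h6 := Nat.div_le_self (P.d - i - 1) (P.e - 1)
      omega
    · rcases mem_mbs h5 with h6 | h6
      · rw [h6, compl_erase hi]
        simp
      · rw [h6, compl_erase_sdiff hi h3]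
        exact card_pos.2 (insert_nonempty _ _)
    · rcases mem_mbs h5 with h6 | h6
      · rw [h6, compl_erase hi]
        by_cases hS : S = ∅
        · left
          exact ⟨k, S, rfl, hiS, by rw [hS]; rfl⟩
        · right
          have h7 : 1 ≤ S.card := card_pos.2 (nonempty_iff_ne_empty.2 hS)
          show P.e - 1 - S.card + ({i} : Finset ℕ).card + 1 ≤ P.e
          rw [card_singleton]
          omega
      · left
        exact ⟨k, S, rfl, hiS, by rw [h6, compl_erase_sdiff hi h3]⟩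
  · obtain ⟨h1, h3, h4⟩ := hτ
    have h5 : A ∈ mbs i P.J ((P.d - i - 1) / (P.e - 1)) S := mem_of_gk hg
    have hiS : i ∉ S := fun h => by
      have := mem_Ico.1 (h3 h)
      omega
    have he : 2 ≤ P.e := by
      by_contra h
      have h6 : P.e - 1 = 0 ∨ P.e - 1 = 0 := by omega
      have : (range P.J \ A).card < 1 ∨ P.e = 0 ∨ P.e = 1 := by omega
      rcases mem_mbs h5 with h6 | h6
      · rw [h6, compl_erase hi, card_singleton] at hA
        omega
      · rw [h6, compl_erase_sdiff hi h3, card_insert_of_notMem hiS] at hA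
        omega
    refine ⟨?_, ?_, Or.inr ?_⟩
    · refine (gk_cl_le _ _ _ _ _).trans ((length_mbs_le _ _ _ _).trans ?_)
      have h6 := Nat.div_le_self (P.d - i - 1) (P.e - 1)
      omega
    · rcases mem_mbs h5 with h6 | h6
      · rw [h6, compl_erase hi]
        simp
      · rw [h6, compl_erase_sdiff hi h3]
        exact card_pos.2 (insert_nonempty _ _)
    · show P.e - 2 - S.card + (range P.J \ A).card + 1 ≤ P.e
      rcases mem_mbs h5 with h6 | h6
      · rw [h6, compl_erase hi, card_singleton]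
        omega
      · rw [h6, compl_erase_sdiff hi h3, card_insert_of_notMem hiS]
        omega
  · obtain ⟨h1, h2⟩ := hτ
    have h5 : A ∈ mbr i P.J ((P.d - i + r - 1) / (P.e - 1)) P.e r := mem_of_gk hg
    have hA' : i ∉ A := by
      unfold mbr at h5
      obtain ⟨s, _, hs⟩ := List.mem_map.1 h5
      rw [← hs]
      intro h
      exact (mem_erase.1 (mem_sdiff.1 h).1).1 rfl
    have h6 : i ∈ range P.J \ A := mem_sdiff.2 ⟨mem_range.2 hi, hA'⟩
    refine ⟨?_, card_pos.2 ⟨i, h6⟩, Or.inr ?_⟩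
    · refine (gk_cl_le _ _ _ _ _).trans ?_
      unfold mbr
      rw [List.length_map, List.length_range]
      have h7 := Nat.div_le_self (P.d - i + r - 1) (P.e - 1)
      omega
    · show 0 + (range P.J \ A).card + 1 ≤ P.e
      omega

theorem cc_le (P : Par) (hc : ∀ i < P.J, 1 ≤ P.c i) {K : Finset ℕ} (hK : K ⊆ range P.J) :
    P.cc K ≤ P.cc (range P.J) := by
  unfold Par.cc
  exact prod_le_prod_of_subset_of_one_le' hK fun i hi _ => hc i (mem_range.1 hi)

theorem one_le_cc (P : Par) (hc : ∀ i < P.J, 1 ≤ P.c i) {K : Finset ℕ} (hK : K ⊆ range P.J) :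
    1 ≤ P.cc K := by
  unfold Par.cc
  exact one_le_prod' fun i hi => hc i (mem_range.1 (hK hi))

theorem mm_le (P : Par) (hd : 1 ≤ P.d) (hc : ∀ i < P.J, 1 ≤ P.c i) {i : ℕ} (hi : i < P.J) {τ : CT}
    (hτ : τ.Ok P.d P.e i P.J) : τ.mm P ≤ P.M * P.d ^ P.J * P.cc (range P.J) := by
  have hS : ∀ S : Finset ℕ, S ⊆ Ico (i + 1) P.J →
      P.M * P.d ^ S.card * P.cc S ≤ P.M * P.d ^ P.J * P.cc (range P.J) := by
    intro S hS
    have h1 : S ⊆ range P.J := fun x hx => mem_range.2 (mem_Ico.1 (hS hx)).2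
    have h2 : S.card ≤ P.J := by
      have := card_le_card h1
      rwa [card_range] at this
    exact Nat.mul_le_mul (Nat.mul_le_mul_left _ (Nat.pow_le_pow_right hd h2)) (cc_le P hc h1)
  rcases τ with ⟨k, S⟩ | S | r
  · exact hS S hτ.2.2.1
  · exact hS S hτ.2.1
  · obtain ⟨h1, h2⟩ := hτ
    show P.M * P.c (r - 1) ≤ _
    have h3 : P.c (r - 1) ≤ P.cc (range P.J) := by
      have h4 := cc_le P hc (K := {r - 1}) (singleton_subset_iff.2 (mem_range.2 (by omega)))
      unfold Par.cc at h4 ⊢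
      rwa [prod_singleton] at h4
    have h4 : 1 ≤ P.d ^ P.J := Nat.one_le_pow _ _ hd
    calc P.M * P.c (r - 1) ≤ P.M * P.d ^ P.J * P.c (r - 1) := by
          rw [mul_assoc]
          exact Nat.mul_le_mul_left _ (Nat.le_mul_of_pos_left _ h4)
      _ ≤ _ := Nat.mul_le_mul_left _ h3

/-- The share of one type of clusters. -/
theorem share (P : Par) (hd : 1 ≤ P.d) (F : ℕ) (hF1 : 1 ≤ F) (hF : ∀ i < P.J, F ≤ P.c i) {n : ℕ}
    (hn : 1 ≤ n) {ms : Multiset Kd}
    (hcnt : ∀ i < P.J, ∀ τ : CT, τ.Ok P.d P.e i P.J →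
      ms.count (τ.kd P.d P.e i P.J) ≤ τ.mm P * n ^ τ.w P.e)
    {A : Finset ℕ} (hA : (range P.J \ A).card < P.e) {i : ℕ} (hi : i < P.J) {τ : CT}
    (hτ : τ.Ok P.d P.e i P.J) (hg : 0 < gk P.e A (τ.kd P.d P.e i P.J)) :
    (ms.count (τ.kd P.d P.e i P.J) : ℝ) * gk P.e A (τ.kd P.d P.e i P.J) ≤
      P.M * P.d ^ (P.J + 1) * (P.cc (range P.J \ A) / F * n ^ (P.e - (range P.J \ A).card) +
        P.cc (range P.J) * n ^ (P.e - (range P.J \ A).card - 1)) := by
  have hc : ∀ i < P.J, 1 ≤ P.c i := fun i hi => hF1.trans (hF i hi)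
  obtain ⟨hgd, hK1, hal⟩ := cases_cl P hi hτ hg hA
  set K := range P.J \ A with hK
  have hn1 : (1 : ℝ) ≤ n := by exact_mod_cast hn
  have hF0 : (0 : ℝ) < F := by exact_mod_cast hF1
  have hgd' : (gk P.e A (τ.kd P.d P.e i P.J) : ℝ) ≤ P.d := by exact_mod_cast hgd
  have hcn : (ms.count (τ.kd P.d P.e i P.J) : ℝ) ≤ τ.mm P * (n : ℝ) ^ τ.w P.e := by
    exact_mod_cast hcnt i hi τ hτ
  have h1 : (ms.count (τ.kd P.d P.e i P.J) : ℝ) * gk P.e A (τ.kd P.d P.e i P.J) ≤
      τ.mm P * (n : ℝ) ^ τ.w P.e * P.d := mul_le_mul hcn hgd' (Nat.cast_nonneg _) (by positivity)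
  refine h1.trans ?_
  rcases hal with ⟨k, S, rfl, hiS, hKS⟩ | hw
  · have h2 : S.card ≤ P.J := by
      have h3 : S ⊆ range P.J := fun x hx => mem_range.2 (mem_Ico.1 (hτ.2.2.1 hx)).2
      have := card_le_card h3
      rwa [card_range] at this
    have h3 : K.card = S.card + 1 := by rw [hKS, card_insert_of_notMem hiS]
    have h4 : (CT.pl k S).w P.e = P.e - K.card := by
      show P.e - 1 - S.card = _
      omega
    have h5 : P.cc K = P.c i * P.cc S := by
      rw [hKS]
      unfold Par.cc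
      rw [prod_insert hiS]
    have h6 : (P.cc S : ℝ) ≤ P.cc K / F := by
      rw [le_div_iff₀ hF0, h5]
      push_cast
      have h7 : (F : ℝ) ≤ P.c i := by exact_mod_cast hF i hi
      nlinarith [(Nat.cast_nonneg (P.cc S) : (0 : ℝ) ≤ P.cc S)]
    have h7 : (((CT.pl k S).mm P : ℕ) : ℝ) ≤ P.M * P.d ^ P.J * (P.cc K / F) := by
      show ((P.M * P.d ^ S.card * P.cc S : ℕ) : ℝ) ≤ _
      push_cast
      have h8 : (P.d : ℝ) ^ S.card ≤ (P.d : ℝ) ^ P.J :=
        pow_le_pow_right₀ (by exact_mod_cast hd) h2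
      gcongr
    rw [h4]
    have h8 : (0 : ℝ) ≤ (P.M : ℝ) * P.d ^ (P.J + 1) *
        (P.cc (range P.J) * (n : ℝ) ^ (P.e - K.card - 1)) := by positivity
    calc (((CT.pl k S).mm P : ℕ) : ℝ) * (n : ℝ) ^ (P.e - K.card) * P.d
        ≤ P.M * P.d ^ P.J * (P.cc K / F) * (n : ℝ) ^ (P.e - K.card) * P.d := by gcongr
      _ = P.M * P.d ^ (P.J + 1) * (P.cc K / F * n ^ (P.e - K.card)) := by ring
      _ ≤ _ := by
        rw [mul_add]
        linarith
  · have h2 : τ.w P.e ≤ P.e - K.card - 1 := by omega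
    have h3 : (τ.mm P : ℝ) ≤ P.M * P.d ^ P.J * P.cc (range P.J) := by
      exact_mod_cast mm_le P hd hc hi hτ
    have h4 : (n : ℝ) ^ τ.w P.e ≤ (n : ℝ) ^ (P.e - K.card - 1) := pow_le_pow_right₀ hn1 h2
    have h8 : (0 : ℝ) ≤ (P.M : ℝ) * P.d ^ (P.J + 1) *
        (P.cc K / F * (n : ℝ) ^ (P.e - K.card)) := by positivity
    calc (τ.mm P : ℝ) * (n : ℝ) ^ τ.w P.e * P.d
        ≤ P.M * P.d ^ P.J * P.cc (range P.J) * (n : ℝ) ^ (P.e - K.card - 1) * P.d := by gcongr
      _ = P.M * P.d ^ (P.J + 1) * (P.cc (range P.J) * n ^ (P.e - K.card - 1)) := by ring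
      _ ≤ _ := by
        rw [mul_add]
        linarith

/-- The real inequality. -/
theorem num_real {k cK X Z n F C Y D T npt cnt : ℝ} (hk : 0 < k) (hcK : 1 ≤ cK) (hZ : 0 ≤ Z)
    (hn : 0 ≤ n) (hX : X = n * Z) (hF : 0 < F) (hC : 0 ≤ C) (_hT : 0 ≤ T) (_hD : 0 ≤ D)
    (hTD : T * D ≤ Y) (h1 : 3 * k / 4 * (cK * X) ≤ npt)
    (h2 : npt ≤ cnt + T * (D * (cK / F * X + C * Z))) (h3 : 4 * Y ≤ k * F)
    (h4 : 4 * (Y * C) ≤ k * n) : k / 4 * X ≤ cnt := by
  have hX0 : 0 ≤ X := by
    rw [hX]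
    exact mul_nonneg hn hZ
  have hcX : 0 ≤ cK * X := mul_nonneg (by linarith) hX0
  have e1 : T * (D * (cK / F * X + C * Z)) = T * D * (cK * X) / F + T * D * (C * Z) := by
    field_simp
  have e2 : T * D * (cK * X) / F ≤ k / 4 * (cK * X) := by
    rw [div_le_iff₀ hF]
    calc T * D * (cK * X) ≤ Y * (cK * X) := mul_le_mul_of_nonneg_right hTD hcX
      _ ≤ k * F / 4 * (cK * X) := by
        apply mul_le_mul_of_nonneg_right _ hcX
        linarith
      _ = k / 4 * (cK * X) * F := by ring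
  have e3 : T * D * (C * Z) ≤ k / 4 * X := by
    calc T * D * (C * Z) ≤ Y * (C * Z) := mul_le_mul_of_nonneg_right hTD (mul_nonneg hC hZ)
      _ = Y * C * Z := by ring
      _ ≤ k * n / 4 * Z := by
        apply mul_le_mul_of_nonneg_right _ hZ
        linarith
      _ = k / 4 * X := by rw [hX]; ring
  have e4 : X ≤ cK * X := by
    have := mul_le_mul_of_nonneg_right hcK hX0
    linarith
  have e5 : k / 4 * X ≤ k / 4 * (cK * X) := mul_le_mul_of_nonneg_left e4 (by linarith)
  rw [e1] at h2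
  have e6 : 3 * k / 4 * (cK * X) = 3 * (k / 4 * (cK * X)) := by ring
  rw [e6] at h1
  linarith

/-- The number of the points `(e, A)` on the last level. -/
theorem npt_ge (P : Par) (hcr : Crit P.d P.e P.kap) (heps : P.eps P.J ≤ P.kap P.e / 4) {n : ℕ}
    {ms : Multiset Kd} (hms : Cls P P.J n ms) {A : Finset ℕ} (hA : A ⊂ range P.J)
    (hKe : (range P.J \ A).card < P.e) :
    3 * P.kap P.e / 4 * (P.cc (range P.J \ A) * (n : ℝ) ^ (P.e - (range P.J \ A).card)) ≤
      npt ms P.e A := by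
  have hw := hms.win P.e A hcr.two hcr.lt hA.1 hKe (Or.inr hA.ne)
  generalize range P.J \ A = K at hw hKe ⊢
  have hw1 := (abs_le.1 hw).1
  have hk := hcr.pos
  have hnat : P.kap P.e ≤ P.nat P.e K := by
    unfold Par.nat
    have h1 : (1 : ℝ) ≤ (P.e.descFactorial K.card : ℕ) := by
      have h2 : 0 < P.e.descFactorial K.card := Nat.descFactorial_pos.2 hKe.le
      exact_mod_cast h2
    nlinarith
  have hX0 : (0 : ℝ) ≤ (P.cc K : ℝ) * (n : ℝ) ^ (P.e - K.card) := by positivity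
  generalize (n : ℝ) ^ (P.e - K.card) = X at hw1 hX0 ⊢
  generalize (P.cc K : ℝ) = cK at hw1 hX0 ⊢
  generalize (npt ms P.e A : ℝ) = y at hw1 ⊢
  generalize P.nat P.e K = z at hw1 hnat
  have e1 : P.kap P.e * (cK * X) ≤ z * (cK * X) := mul_le_mul_of_nonneg_right hnat hX0
  have e2 : P.eps P.J * (cK * X) ≤ P.kap P.e / 4 * (cK * X) :=
    mul_le_mul_of_nonneg_right heps hX0
  have e3 : z * cK * X = z * (cK * X) := by ring
  have e4 : P.eps P.J * cK * X = P.eps P.J * (cK * X) := by ring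
  rw [e3, e4] at hw1
  have e5 : 3 * P.kap P.e / 4 * (cK * X) = P.kap P.e * (cK * X) - P.kap P.e / 4 * (cK * X) := by
    ring
  rw [e5]
  linarith

/-- The number of the members of clusters. -/
theorem npt_le' (P : Par) (hd : 1 ≤ P.d) (F : ℕ) (hF1 : 1 ≤ F) (hF : ∀ i < P.J, F ≤ P.c i) {n : ℕ}
    (hn : 1 ≤ n) {ms : Multiset Kd} (hms : Cls P P.J n ms) {A : Finset ℕ}
    (hA : (range P.J \ A).card < P.e) :
    (npt ms P.e A : ℝ) ≤ ms.count (.ord P.e A) + ((range P.J ×ˢ cts P.d P.J).card : ℝ) *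
      (P.M * (P.d : ℝ) ^ (P.J + 1) * (P.cc (range P.J \ A) / (F : ℝ) *
        (n : ℝ) ^ (P.e - (range P.J \ A).card) +
        P.cc (range P.J) * (n : ℝ) ^ (P.e - (range P.J \ A).card - 1))) := by
  have h2 := npt_le (d := P.d) (e := P.e) (J := P.J) ms A (fun k hk => by
    rcases hms.mem k hk with ⟨x, B, h3, _⟩ | h3
    · exact Or.inl ⟨x, B, h3⟩
    · exact Or.inr h3)
  have hnn : (0 : ℝ) ≤ P.M * (P.d : ℝ) ^ (P.J + 1) * (P.cc (range P.J \ A) / (F : ℝ) *
        (n : ℝ) ^ (P.e - (range P.J \ A).card) +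
        P.cc (range P.J) * (n : ℝ) ^ (P.e - (range P.J \ A).card - 1)) := by positivity
  have key : ∀ x ∈ range P.J ×ˢ cts P.d P.J,
      (((if 0 < gk P.e A (x.2.kd P.d P.e x.1 P.J) then ms.count (x.2.kd P.d P.e x.1 P.J) *
        gk P.e A (x.2.kd P.d P.e x.1 P.J) else 0 : ℕ)) : ℝ) ≤
      P.M * (P.d : ℝ) ^ (P.J + 1) * (P.cc (range P.J \ A) / (F : ℝ) *
        (n : ℝ) ^ (P.e - (range P.J \ A).card) +
        P.cc (range P.J) * (n : ℝ) ^ (P.e - (range P.J \ A).card - 1)) := by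
    intro x hx
    split_ifs with h5
    · by_cases h6 : 0 < ms.count (x.2.kd P.d P.e x.1 P.J)
      · obtain ⟨j, hj, τ, hτ, hkd⟩ : ∃ j < P.J, ∃ τ : CT, τ.Ok P.d P.e j P.J ∧
            x.2.kd P.d P.e x.1 P.J = τ.kd P.d P.e j P.J := by
          rcases hms.mem _ (Multiset.count_pos.1 h6) with ⟨y, B, h7, _⟩ | h7
          · exfalso
            rcases x with ⟨i, τ⟩
            rcases τ with ⟨k, S⟩ | S | r <;> simp [CT.kd] at h7
          · exact h7
        rw [hkd] at h5 ⊢
        have h8 := share P hd F hF1 hF hn hms.cnt hA hj hτ h5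
        rw [Nat.cast_mul]
        exact h8
      · have h7 : ms.count (x.2.kd P.d P.e x.1 P.J) = 0 := by omega
        rw [h7, zero_mul, Nat.cast_zero]
        exact hnn
    · rw [Nat.cast_zero]
      exact hnn
  have h4 : (npt ms P.e A : ℝ) ≤ ((ms.count (.ord P.e A) + ∑ x ∈ range P.J ×ˢ cts P.d P.J,
      (if 0 < gk P.e A (x.2.kd P.d P.e x.1 P.J) then ms.count (x.2.kd P.d P.e x.1 P.J) *
        gk P.e A (x.2.kd P.d P.e x.1 P.J) else 0) : ℕ) : ℝ) := by exact_mod_cast h2
  refine h4.trans ?_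
  rw [Nat.cast_add, Nat.cast_sum]
  refine add_le_add le_rfl ((sum_le_sum key).trans ?_)
  rw [sum_const, nsmul_eq_mul]

/-- **The numbers of the ordinary main points.** -/
theorem ord_ge (P : Par) (hcr : Crit P.d P.e P.kap) (heps : P.eps P.J ≤ P.kap P.e / 4) (F : ℕ)
    (hF1 : 1 ≤ F) (hF : ∀ i < P.J, F ≤ P.c i)
    (hF4 : 4 * (((P.d * ∑ J ∈ range (P.d + 1), (cts P.d J).card : ℕ) : ℝ) *
      (P.M * (P.d : ℝ) ^ (P.d + 1))) ≤ P.kap P.e * F) :
      ∃ n₀ : ℕ, 1 ≤ n₀ ∧ ∀ n, n₀ ≤ n → ∀ ms, Cls P P.J n ms → ∀ A, A ⊂ range P.J →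
        P.J + 1 ≤ A.card + P.e →
        P.kap P.e / 4 * (n : ℝ) ^ (A.card + P.e - P.J) ≤ ms.count (.ord P.e A) := by
  have hk := hcr.pos
  have hc : ∀ i < P.J, 1 ≤ P.c i := fun i hi => hF1.trans (hF i hi)
  have hd2 := hcr.two
  have hd3 := hcr.lt
  have hd : 1 ≤ P.d := by omega
  have hJ : P.J = P.d - P.e := rfl
  obtain ⟨n₁, hn₁⟩ := exists_nat_ge (4 * (((P.d * ∑ J ∈ range (P.d + 1), (cts P.d J).card : ℕ) : ℝ) *
      (P.M * (P.d : ℝ) ^ (P.d + 1)) * P.cc (range P.J)) / P.kap P.e)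
  refine ⟨n₁ + 1, by omega, fun n hn ms hms A hA hAc => ?_⟩
  have hn1 : 1 ≤ n := by omega
  have hAJ : A.card < P.J := by
    have := card_lt_card hA
    rwa [card_range] at this
  have hKc : (range P.J \ A).card = P.J - A.card := by
    rw [card_sdiff_of_subset hA.1, card_range]
  have hKe : (range P.J \ A).card < P.e := by omega
  have hexp : A.card + P.e - P.J = P.e - (range P.J \ A).card := by omega
  rw [hexp]
  have hKJ : range P.J \ A ⊆ range P.J := sdiff_subset
  have hcard : ((range P.J ×ˢ cts P.d P.J).card : ℝ) ≤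
      ((P.d * ∑ J ∈ range (P.d + 1), (cts P.d J).card : ℕ) : ℝ) := by
    rw [card_product, card_range]
    have h4 : (cts P.d P.J).card ≤ ∑ J ∈ range (P.d + 1), (cts P.d J).card :=
      single_le_sum (f := fun J => (cts P.d J).card) (fun _ _ => Nat.zero_le _)
        (mem_range.2 (by omega))
    have h5 : P.J * (cts P.d P.J).card ≤ P.d * ∑ J ∈ range (P.d + 1), (cts P.d J).card :=
      Nat.mul_le_mul (by omega) h4
    exact_mod_cast h5
  have hdJ : (P.d : ℝ) ^ (P.J + 1) ≤ (P.d : ℝ) ^ (P.d + 1) :=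
    pow_le_pow_right₀ (by exact_mod_cast hd) (by omega)
  refine num_real (cK := P.cc (range P.J \ A)) (Z := (n : ℝ) ^ (P.e - (range P.J \ A).card - 1))
    (n := n) (F := F) (C := P.cc (range P.J))
    (Y := ((P.d * ∑ J ∈ range (P.d + 1), (cts P.d J).card : ℕ) : ℝ) *
      (P.M * (P.d : ℝ) ^ (P.d + 1))) (D := P.M * (P.d : ℝ) ^ (P.J + 1))
    (T := ((range P.J ×ˢ cts P.d P.J).card : ℝ)) (npt := npt ms P.e A) hk ?_ (by positivity)
    (Nat.cast_nonneg _) ?_ (by exact_mod_cast hF1) (Nat.cast_nonneg _) (Nat.cast_nonneg _)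
    (by positivity) ?_ (npt_ge P hcr heps hms hA hKe) (npt_le' P hd F hF1 hF hn1 hms hKe) hF4 ?_
  · exact_mod_cast one_le_cc P hc hKJ
  · rw [← pow_succ']
    congr 1
    omega
  · refine mul_le_mul hcard ?_ (by positivity) (Nat.cast_nonneg _)
    exact mul_le_mul_of_nonneg_left hdJ (Nat.cast_nonneg _)
  · rw [div_le_iff₀ hk] at hn₁
    refine hn₁.trans ?_
    rw [mul_comm]
    apply mul_le_mul_of_nonneg_left _ hk.le
    have : n₁ ≤ n := by omega
    exact_mod_cast this

end Pool.Agent.GD.GA
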