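import Pool.Agent.GD.GA.Main
import Pool.Agent.GD.GA.Num
import Pool.Agent.GD.Top.Stmt

/-!
# General d, block GAMMA: the result for the classes
-/

set_option autoImplicit false
set_option linter.unusedSectionVars false

namespace Pool.Agent.GD.GA

open Finset MvPolynomial Pool.Agent.H51.TB Pool.Agent.H54.V7 Pool.Agent.V7.ST
open Pool.Agent.GD.Top (Bl TI Gam IsB Gam_zero)

theorem card_block {c : ℕ → ℕ} {J m n : ℕ} {φ : Bl c J ⊕ Fin m ≃ Fin n} {β : Fin n → ℕ}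
    (hφ : IsB φ β) {i : ℕ} (hi : i < J) :
    (univ.filter fun s => β s = i).card ≤ c i := by
  classical
  have h1 : (univ.filter fun s => β s = i) ⊆
      (univ : Finset (Fin (c i))).image fun r => φ (Sum.inl ⟨⟨i, hi⟩, r⟩) := by
    intro s hs
    have hs' := (mem_filter.1 hs).2
    obtain ⟨x, rfl⟩ := φ.surjective s
    rcases x with ⟨i', r⟩ | t
    · have h2 := hφ.1 ⟨i', r⟩
      rw [hs'] at h2
      have h3 : i' = ⟨i, hi⟩ := Fin.ext h2.symm
      subst h3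
      exact mem_image.2 ⟨r, mem_univ _, rfl⟩
    · have h2 := hφ.2 t
      omega
  refine (card_le_card h1).trans (card_image_le.trans ?_)
  rw [card_univ, Fintype.card_fin]

theorem nn_real {κ q t e n : ℕ} (hq : q ≤ n) (hn : 1 ≤ n) (ht : t + 1 ≤ e) {k : ℝ}
    (hk : (κ : ℝ) * (e + 1) ^ e * 2 ^ e ≤ k / 4 * n) :
    (nn κ q t : ℝ) ≤ k / 4 * (n : ℝ) ^ (t + 1) := by
  have h1 : nn κ q t ≤ κ * (e + 1) ^ e * (2 ^ e * n ^ t) := by
    refine (nn_le κ q t).trans ?_
    refine Nat.mul_le_mul (Nat.mul_le_mul_left _ ?_) ?_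
    · exact (Nat.pow_le_pow_left (by omega) t).trans (Nat.pow_le_pow_right (by omega) (by omega))
    · calc (q + 1) ^ t ≤ (2 * n) ^ t := Nat.pow_le_pow_left (by omega) t
        _ = 2 ^ t * n ^ t := mul_pow _ _ _
        _ ≤ 2 ^ e * n ^ t := Nat.mul_le_mul_right _ (Nat.pow_le_pow_right (by norm_num) (by omega))
  have h2 : (nn κ q t : ℝ) ≤ κ * (e + 1) ^ e * (2 ^ e * (n : ℝ) ^ t) := by exact_mod_cast h1
  have h3 : (0 : ℝ) ≤ (n : ℝ) ^ t := by positivity
  calc (nn κ q t : ℝ) ≤ (κ * (e + 1) ^ e * 2 ^ e) * (n : ℝ) ^ t := by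
        rw [mul_assoc]
        exact h2
    _ ≤ (k / 4 * n) * (n : ℝ) ^ t := mul_le_mul_of_nonneg_right hk h3
    _ = _ := by ring

/-- **GAMMA** for the classes. -/
theorem targetGam : TargetT GAMJ := by
  intro d e kap hcr
  have hk := hcr.pos
  refine ⟨1, kap e / 4, le_rfl, by linarith, fun P hPd hPe hPk hOk => ?_⟩
  obtain ⟨F₀, hF₀⟩ := exists_nat_ge
    (4 * (((P.d * ∑ J ∈ range (P.d + 1), (cts P.d J).card : ℕ) : ℝ) *
      (P.M * (P.d : ℝ) ^ (P.d + 1))) / P.kap P.e)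
  refine ⟨1, fun _ => F₀ + 1, one_pos, fun c hc => ?_⟩
  have hcrP : Crit P.d P.e P.kap := hOk.toCrit
  have hkP := hcrP.pos
  have hcF : ∀ i < P.J, F₀ + 1 ≤ c i := fun i hi => (hc i hi).2.2
  have heps : P.eps P.J ≤ P.kap P.e / 4 := by
    have := hOk.epsJ
    rw [hPk, hPe]
    exact this
  have hF4 : 4 * (((P.d * ∑ J ∈ range (P.d + 1), (cts P.d J).card : ℕ) : ℝ) *
      (P.M * (P.d : ℝ) ^ (P.d + 1))) ≤ P.kap P.e * ((F₀ + 1 : ℕ) : ℝ) := by
    rw [div_le_iff₀ hkP] at hF₀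
    refine hF₀.trans ?_
    rw [mul_comm]
    apply mul_le_mul_of_nonneg_left _ hkP.le
    push_cast
    linarith
  obtain ⟨n₁, hn₁1, hord⟩ := ord_ge (P.wc c) hcrP heps (F₀ + 1) (by omega) hcF hF4
  have hJ : P.J = P.d - P.e := rfl
  have hlt := hcrP.lt
  have htwo := hcrP.two
  obtain ⟨κ, hκ⟩ := gamma_gn (d := P.d) (e := P.e) (J := P.J) hcrP.two (by omega)
    (∑ i ∈ range P.J, c i + 1)
  obtain ⟨n₂, hn₂⟩ := exists_nat_ge ((κ : ℝ) * (P.e + 1) ^ P.e * 2 ^ P.e / (P.kap P.e / 4))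
  refine ⟨n₁ + n₂, fun n hn m φ hφ ms hms _ ι _ rest hrest => ?_⟩
  have hn1 : 1 ≤ n := by omega
  have hkn : (κ : ℝ) * (P.e + 1) ^ P.e * 2 ^ P.e ≤ P.kap P.e / 4 * n := by
    rw [div_le_iff₀ (by linarith)] at hn₂
    refine hn₂.trans ?_
    rw [mul_comm]
    apply mul_le_mul_of_nonneg_left _ (by linarith)
    have : n₂ ≤ n := by omega
    exact_mod_cast this
  have hblk : ∀ i < P.J, (univ.filter fun s => blk c n s = i).card ≤ ∑ i ∈ range P.J, c i + 1 := by
    intro i hi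
    have h1 := card_block (β := blk c n) hφ hi
    have h2 : c i ≤ ∑ i ∈ range P.J, c i :=
      single_le_sum (f := c) (fun _ _ => Nat.zero_le _) (mem_range.2 hi)
    have h3 : (univ.filter fun s => blk c n s = i).card ≤ c i := h1
    omega
  have hq : Fintype.card (Fin n) < (n / (∑ i ∈ range P.J, c i + 1) + 1) *
      (∑ i ∈ range P.J, c i + 1) := by
    rw [Fintype.card_fin]
    have hs : 0 < ∑ i ∈ range P.J, c i + 1 := Nat.succ_pos _
    generalize ∑ i ∈ range P.J, c i + 1 = s₀ at hs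
    have h1 := Nat.div_add_mod n s₀
    have h2 := Nat.mod_lt n hs
    have h3 : s₀ * (n / s₀) = n / s₀ * s₀ := mul_comm _ _
    rw [add_mul, one_mul]
    omega
  have h := hκ (Fin n) (blk c n) hblk (n / (∑ i ∈ range P.J, c i + 1)) hq ι rest (by
    intro A hA hAc
    have hAJ : A.card < P.J := by
      have := card_lt_card hA
      rwa [card_range] at this
    have h1 := hord n (by omega) ms hms A hA hAc
    have h2 : A.card + P.e - P.J = A.card + P.e - (P.J + 1) + 1 := by omega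
    have h3 : (nn κ (n / (∑ i ∈ range P.J, c i + 1)) (A.card + P.e - (P.J + 1)) : ℝ) ≤
        P.kap P.e / 4 * (n : ℝ) ^ (A.card + P.e - (P.J + 1) + 1) :=
      nn_real (Nat.div_le_self _ _) hn1 (by omega) hkn
    rw [← h2] at h3
    have h4 : (nn κ (n / (∑ i ∈ range P.J, c i + 1)) (A.card + P.e - (P.J + 1)) : ℝ) ≤
        ms.count (Kd.ord P.e A) := h3.trans h1
    rw [hrest]
    exact_mod_cast h4)
  refine h.mono fun p hp f hf h0 => hp f hf fun x hx => ?_
  exact Gam_zero hφ f h0 x hx.le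

end Pool.Agent.GD.GA
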