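import Pool.Agent.GD.GA.Lvl
import Pool.Agent.V7.GA.Ind

/-!
# General d, block GAMMA: the induction
-/

set_option autoImplicit false
set_option linter.unusedSectionVars false

namespace Pool.Agent.GD.GA

open Finset MvPolynomial Pool.Agent.H51.TB Pool.Agent.H54.V7 Pool.Agent.V7.ST
open Pool.Agent.V7 (Ex mem_Ex msk)
open Pool.Agent.V7.GA (SG mem_SG gM_anti gM_kill card_le_deg nb nb_lt nb_eq nb_mem nb_lt_iff card_W)

/-- The number of the points of a type. -/
def nn (κ q t : ℕ) : ℕ := κ * (q + t).choose t

theorem nn_mono (κ q t : ℕ) : nn κ q t ≤ nn κ (q + 1) t :=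
  Nat.mul_le_mul_left _ (Nat.choose_le_choose _ (by omega))

theorem nn_ge (κ q t : ℕ) : κ ≤ nn κ q t := by
  unfold nn
  have h1 : 1 ≤ (q + t).choose t := Nat.choose_pos (Nat.le_add_left t q)
  nlinarith

theorem nn_add (κ κ' q t : ℕ) : nn (κ + κ') q t = nn κ q t + nn κ' q t := by
  unfold nn
  ring

theorem nn_step (κ q t : ℕ) : nn κ q (t + 1) + nn κ q t ≤ nn κ (q + 1) (t + 1) := by
  unfold nn
  have e1 : q + 1 + (t + 1) = (q + (t + 1)) + 1 := by ring
  have h1 : (q + 1 + (t + 1)).choose (t + 1) =
      (q + (t + 1)).choose t + (q + (t + 1)).choose (t + 1) := by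
    rw [e1]
    exact Nat.choose_succ_succ' _ _
  have h2 : (q + t).choose t ≤ (q + (t + 1)).choose t := Nat.choose_le_choose _ (by omega)
  rw [h1, mul_add]
  have h3 := Nat.mul_le_mul_left κ h2
  omega

/-- `nn κ q (|I| + e - (j + 1))` points of each good type `I` kill all forms, if the blocks
`0, …, j - 1` have at most `c` variables and there are less than `(q + 1) c` other variables. -/
def PP (e J c j κ : ℕ) : Prop :=
  ∀ (ν : Type) [Fintype ν] [DecidableEq ν] (β : ν → ℕ) (W : Finset ν) (q : ℕ),
    (∀ i < j, (W.filter fun s => β s = i).card ≤ c) →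
    (W.filter fun s => j ≤ β s).card < (q + 1) * c →
    ∀ s : Multiset (Finset ℕ), (∀ I ∈ s, I ⊆ range j) →
      (∀ I, Good e J j I → nn κ q (I.card + e - (j + 1)) ≤ s.count I) →
      gM (SG (J + 1) β (Ag e J β j W)) s = 0

theorem pp_top (e J c κ : ℕ) : PP e J c (e + J) κ := by
  intro ν _ _ β W q _ _ s _ _
  have h1 : Ag e J β (e + J) W = ∅ := by
    rw [eq_empty_iff_forall_notMem]
    intro a ha
    obtain ⟨⟨hdeg, hmeet⟩, _, hx⟩ := mem_Ag.mp ha
    have h2 := card_le_deg β a (Ico J (e + J)) fun i hi =>
      hmeet i (mem_Ico.mp hi).2
    rw [Nat.card_Ico] at h2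
    have h3 : ∑ s ∈ univ.filter (fun s => β s < J), a s +
        ∑ s ∈ univ.filter (fun s => β s ∈ Ico J (e + J)), a s ≤ ∑ s, a s := by
      rw [← sum_union]
      · exact sum_le_sum_of_subset (subset_univ _)
      · rw [disjoint_left]
        intro s hs hs'
        rw [mem_filter] at hs hs'
        have := (mem_Ico.mp hs'.2).1
        omega
    omega
  have h2 := gM_anti (SG (J + 1) β (Ag e J β (e + J) W)) (Multiset.zero_le s)
  rw [gM_zero, Fintype.card_coe, h1, card_empty] at h2
  rw [h1]
  omega

open Classical in
/-- The points which are put on the subspace. -/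
noncomputable def onp (e J j κ q : ℕ) : Multiset (Finset ℕ) :=
  ∑ I ∈ (range j).powerset.filter (Good e J j),
    Multiset.replicate (nn κ q (I.card + e - (j + 1))) I

theorem count_onp (e J j κ q : ℕ) (A : Finset ℕ) (hA : Good e J j A) :
    (onp e J j κ q).count A = nn κ q (A.card + e - (j + 1)) := by
  classical
  unfold onp
  rw [Multiset.count_sum', sum_eq_single A]
  · rw [Multiset.count_replicate_self]
  · intro I _ hIJ
    rw [Multiset.count_replicate, if_neg hIJ]
  · intro h
    exfalso
    apply h
    rw [mem_filter, mem_powerset]
    exact ⟨hA.1, hA⟩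

theorem count_onp_not (e J j κ q : ℕ) (A : Finset ℕ) (hA : ¬ Good e J j A) :
    (onp e J j κ q).count A = 0 := by
  classical
  unfold onp
  rw [Multiset.count_sum']
  refine sum_eq_zero fun I hI => ?_
  rw [Multiset.count_replicate, if_neg]
  intro h
  exact hA (by rw [← h]; exact (mem_filter.mp hI).2)

theorem mem_onp {e J j κ q : ℕ} {A : Finset ℕ} (h : A ∈ onp e J j κ q) : Good e J j A := by
  by_contra hc
  have := count_onp_not e J j κ q A hc
  rw [Multiset.count_eq_zero] at this
  exact this h

theorem onp_le {e J j κ q : ℕ} {s : Multiset (Finset ℕ)}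
    (h : ∀ I, Good e J j I → nn κ q (I.card + e - (j + 1)) ≤ s.count I) :
    onp e J j κ q ≤ s := by
  rw [Multiset.le_iff_count]
  intro A
  by_cases hA : Good e J j A
  · rw [count_onp e J j κ q A hA]
    exact h A hA
  · rw [count_onp_not e J j κ q A hA]
    exact Nat.zero_le _

/-- The dimension is bounded. -/
theorem bound {e J c j κ : ℕ} (hj : J ≤ j) (hP : PP e J c (j + 1) κ)
    {ν : Type} [Fintype ν] [DecidableEq ν] (β : ν → ℕ) (q : ℕ) : ∀ W : Finset ν,
    (∀ i < j, (W.filter fun s => β s = i).card ≤ c) →
    (W.filter fun s => j ≤ β s).card < (q + 1) * c →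
    ∀ s : Multiset (Finset ℕ), (∀ I ∈ s, I ⊆ range j) →
      (∀ I, Good e J j I → nn κ q (I.card + e - (j + 1)) ≤ s.count I) →
      gM (SG (J + 1) β (Ag e J β j W)) s ≤ (e + J + 1) ^ ((j + 1) * c) := by
  induction q with
  | zero =>
    intro W hW1 hW2 s _ _
    refine (gM_anti _ (Multiset.zero_le s)).trans ?_
    rw [gM_zero, Fintype.card_coe]
    refine (card_Ag_le e J β j W).trans (Nat.pow_le_pow_right (by omega) ?_)
    rw [zero_add, one_mul] at hW2
    exact card_W β W j c hW1 hW2
  | succ q ih =>
    intro W hW1 hW2 s hs hc
    by_cases hz : (W.filter fun s => j ≤ β s).card < (q + 1) * c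
    · exact ih W hW1 hz s hs fun I hI => le_trans (nn_mono _ _ _) (hc I hI)
    · have hc1 : c ≤ (W.filter fun s => j ≤ β s).card := by
        have : (q + 1) * c = q * c + c := by ring
        have := Nat.zero_le (q * c)
        omega
      obtain ⟨Bk, hBk, hBc⟩ := exists_subset_card_eq hc1
      have hB : ∀ s ∈ Bk, j ≤ β s := fun s hs => (mem_filter.mp (hBk hs)).2
      have hBW : ∀ s ∈ Bk, s ∈ W := fun s hs => (mem_filter.mp (hBk hs)).1
      have hle : onp e J j κ q ≤ s := onp_le fun I hI => le_trans (nn_mono _ _ _) (hc I hI)
      have hst : onp e J j κ q + (s - onp e J j κ q) = s := add_tsub_cancel_of_le hle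
      have hon : ∀ I ∈ onp e J j κ q, I ⊆ range j := fun I hI => (mem_onp hI).1
      have hoff : ∀ I ∈ s - onp e J j κ q, I ⊆ range j := fun I hI =>
        hs I (Multiset.mem_of_le tsub_le_self hI)
      have h1 := gM_trace (M := J + 1) (e := e) (W := W) hj hB (onp e J j κ q) (s - onp e J j κ q) hon hoff
      rw [hst] at h1
      refine h1.trans ?_
      have hcard : ((W \ Bk).filter fun s => j ≤ β s).card + c =
          (W.filter fun s => j ≤ β s).card := by
        have e1 : ((W \ Bk).filter fun s => j ≤ β s) = (W.filter fun s => j ≤ β s) \ Bk := by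
          ext s
          simp only [mem_filter, mem_sdiff]
          tauto
        rw [e1, card_sdiff_of_subset hBk, hBc]
        omega
      have h2 := ih (W \ Bk) (fun i hi => le_trans (card_le_card (by
          intro s hs
          rw [mem_filter, mem_sdiff] at hs
          rw [mem_filter]
          exact ⟨hs.1.1, hs.2⟩)) (hW1 i hi)) (by
          have : (q + 1 + 1) * c = (q + 1) * c + c := by ring
          omega) (onp e J j κ q) hon fun I hI => le_of_eq (count_onp e J j κ q I hI).symm
      have h3 : gM (SG (J + 1) (nb β j Bk) (Ag e J (nb β j Bk) (j + 1) W))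
          ((onp e J j κ q).map (insert j) + (s - onp e J j κ q)) = 0 := by
        refine hP ν (nb β j Bk) W q ?_ ?_ _ ?_ ?_
        · intro i hi
          rcases Nat.lt_succ_iff_lt_or_eq.mp hi with hi | hi
          · have e1 : (W.filter fun s => nb β j Bk s = i) = W.filter fun s => β s = i :=
              filter_congr fun s _ => nb_lt hB hi
            rw [e1]
            exact hW1 i hi
          · rw [hi, ← hBc]
            refine card_le_card fun s hs => ?_
            exact nb_eq.mp (mem_filter.mp hs).2
        · have e1 : (W.filter fun s => j + 1 ≤ nb β j Bk s) ⊆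
              (W \ Bk).filter fun s => j ≤ β s := by
            intro s hs
            rw [mem_filter] at hs ⊢
            rw [mem_sdiff]
            have h5 : s ∉ Bk := by
              intro h
              have := (nb_eq (β := β) (j := j)).mpr h
              omega
            refine ⟨⟨hs.1, h5⟩, ?_⟩
            by_contra h6
            have h7 := (nb_lt (Bk := Bk) hB (i := β s) (s := s) (by omega)).mpr rfl
            omega
          have e2 := card_le_card e1
          have : (q + 1 + 1) * c = (q + 1) * c + c := by ring
          omega
        · intro I hI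
          rcases Multiset.mem_add.mp hI with hI | hI
          · obtain ⟨A, hA, rfl⟩ := Multiset.mem_map.mp hI
            intro i hi
            rcases mem_insert.mp hi with hi | hi
            · rw [hi]
              exact mem_range.mpr (Nat.lt_succ_self j)
            · exact mem_range.mpr (Nat.lt_succ_of_lt (mem_range.mp (hon A hA hi)))
          · exact (hoff I hI).trans (range_subset_range.mpr (Nat.le_succ j))
        · intro A hA
          rw [Multiset.count_add]
          by_cases hjA : j ∈ A
          · have hg : Good e J j (A.erase j) := by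
              refine ⟨?_, ?_, ?_⟩
              · intro i hi
                have h5 := mem_range.mp (hA.1 (mem_erase.mp hi).2)
                have h6 := (mem_erase.mp hi).1
                exact mem_range.mpr (by omega)
              · rw [card_erase_of_mem hjA]
                have h5 := hA.2.1
                have h6 := card_pos.mpr ⟨j, hjA⟩
                omega
              · intro h
                exact hA.2.2 (h.trans (erase_subset _ _))
            have h5 : nn κ q (A.card + e - (j + 1 + 1)) ≤
                ((onp e J j κ q).map (insert j)).count A := by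
              have h6 := Multiset.count_map (b := A) (insert j) (onp e J j κ q)
              rw [h6]
              have h7 : Multiset.replicate ((onp e J j κ q).count (A.erase j)) (A.erase j) ≤
                  Multiset.filter (fun a => A = insert j a) (onp e J j κ q) := by
                rw [Multiset.le_iff_count]
                intro K
                rw [Multiset.count_replicate]
                split_ifs with hK
                · rw [← hK, Multiset.count_filter_of_pos (p := fun a => A = insert j a)
                    (insert_erase hjA).symm]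
                · exact Nat.zero_le _
              have h8 := Multiset.card_le_card h7
              rw [Multiset.card_replicate, count_onp e J j κ q _ hg, card_erase_of_mem hjA] at h8
              have h9 := card_pos.mpr ⟨j, hjA⟩
              have h10 : A.card - 1 + e - (j + 1) = A.card + e - (j + 1 + 1) := by omega
              rw [h10] at h8
              exact h8
            omega
          · have hAj : A ⊆ range j := by
              intro i hi
              have h5 := mem_range.mp (hA.1 hi)
              have h6 : i ≠ j := fun h => hjA (by rw [← h]; exact hi)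
              exact mem_range.mpr (by omega)
            have hg : Good e J j A := ⟨hAj, by have := hA.2.1; omega, hA.2.2⟩
            have h5 := hc A hg
            rw [Multiset.count_sub, count_onp e J j κ q A hg]
            have h6 : A.card + e - (j + 1) = A.card + e - (j + 1 + 1) + 1 := by
              have := hA.2.1
              omega
            have h7 := nn_step κ q (A.card + e - (j + 1 + 1))
            rw [← h6] at h7
            omega
      omega

/-- The induction step. -/
theorem pp_step {e J c j κ : ℕ} (he : 2 ≤ e) (hj : J ≤ j) (hj2 : j < e + J)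
    (hP : PP e J c (j + 1) κ) : PP e J c j (κ + (e + J + 1) ^ ((j + 1) * c)) := by
  classical
  intro ν _ _ β W q hW1 hW2 s hs hc
  have hle : onp e J j κ q ≤ s := onp_le fun I hI => le_trans
        (by rw [nn_add]; exact Nat.le_add_right _ _) (hc I hI)
  have hst : onp e J j κ q + (s - onp e J j κ q) = s := add_tsub_cancel_of_le hle
  have h1 := bound hj hP β q W hW1 hW2 (onp e J j κ q) (fun I hI => (mem_onp hI).1)
    fun I hI => le_of_eq (count_onp e J j κ q I hI).symm
  have h2 := gM_kill (SG (J + 1) β (Ag e J β j W)) _ (exists_type he hj hj2) _ (onp e J j κ q)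
    (s - onp e J j κ q) h1 (by
      rintro I ⟨hI, hIc⟩
      have h3 := hc I hI
      rw [Multiset.count_sub, count_onp e J j κ q I hI]
      rw [nn_add] at h3
      have h4 := nn_ge ((e + J + 1) ^ ((j + 1) * c)) q (I.card + e - (j + 1))
      omega)
  rw [hst] at h2
  exact h2

/-- The statement at all levels `J ≤ j ≤ e + J`. -/
theorem exists_pp {e J : ℕ} (c : ℕ) (he : 2 ≤ e) (d : ℕ) : ∀ j, j + d = e + J → J ≤ j →
    ∃ κ, PP e J c j κ := by
  induction d with
  | zero =>
    intro j hj _
    have h1 : j = e + J := by omega
    rw [h1]
    exact ⟨0, pp_top e J c 0⟩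
  | succ d ih =>
    intro j hj hj2
    obtain ⟨κ, hκ⟩ := ih (j + 1) (by omega) (by omega)
    exact ⟨_, pp_step he hj2 (by omega) hκ⟩

end Pool.Agent.GD.GA
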