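import Pool.Agent.V7.GA.Trace
import Pool.Agent.V7.GA.Kill

/-!
# General d, block GAMMA: the systems and the trace step

As `V7/GA`, for forms of degree `e + J` and points of multiplicity `J + 1` (exponent `e`).
-/

set_option autoImplicit false
set_option linter.unusedSectionVars false

namespace Pool.Agent.GD.GA

open Finset MvPolynomial Pool.Agent.H51.TB Pool.Agent.H54.V7 Pool.Agent.V7.ST
open Pool.Agent.V7 (Ex mem_Ex msk)
open Pool.Agent.V7.GA (SG mem_SG sum_sub tcr_zero_of gM_anti gM_kill card_le_deg nb nb_lt nb_eq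
  nb_mem nb_lt_iff msk_nb zb msk_nb_insert exists_not_mem)
open Pool.Agent.H18.Ex (tcr)

variable {ν : Type} [Fintype ν] [DecidableEq ν]

/-- The exponents of degree `e + J` which meet the blocks `0, …, j - 1`, have degree at least `J + 1`
in the blocks `0, …, J - 1` and are supported on `W`. -/
def Ag (e J : ℕ) (β : ν → ℕ) (j : ℕ) (W : Finset ν) : Finset (ν → ℕ) :=
  (Ex β (e + J) j).filter fun a =>
    (∀ s, a s ≠ 0 → s ∈ W) ∧ J + 1 ≤ ∑ s ∈ univ.filter (fun s => β s < J), a s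

theorem mem_Ag {e J : ℕ} {β : ν → ℕ} {j : ℕ} {W : Finset ν} {a : ν → ℕ} :
    a ∈ Ag e J β j W ↔ (∑ s, a s = e + J ∧ ∀ i < j, ∃ s, β s = i ∧ a s ≠ 0) ∧
      (∀ s, a s ≠ 0 → s ∈ W) ∧ J + 1 ≤ ∑ s ∈ univ.filter (fun s => β s < J), a s := by
  unfold Ag
  rw [mem_filter, mem_Ex]

/-- The number of exponents is bounded in terms of `|W|`. -/
theorem card_Ag_le (e J : ℕ) (β : ν → ℕ) (j : ℕ) (W : Finset ν) :
    (Ag e J β j W).card ≤ (e + J + 1) ^ W.card := by
  classical
  have hlt : ∀ a ∈ Ag e J β j W, ∀ s, a s < e + J + 1 := by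
    intro a ha s
    have h1 := (mem_Ag.mp ha).1.1
    have h2 := single_le_sum (f := a) (fun _ _ => Nat.zero_le _) (mem_univ s)
    omega
  have h1 : Fintype.card {a // a ∈ Ag e J β j W} ≤
      Fintype.card ({s // s ∈ W} → Fin (e + J + 1)) := by
    refine Fintype.card_le_of_injective
      (fun a s => ⟨a.1 s.1, hlt a.1 a.2 s.1⟩) ?_
    intro a b hab
    apply Subtype.ext
    funext s
    by_cases hs : s ∈ W
    · exact congrArg Fin.val (congrFun hab ⟨s, hs⟩)
    · have ha := (mem_Ag.mp a.2).2.1 s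
      have hb := (mem_Ag.mp b.2).2.1 s
      by_contra hne
      by_cases h0 : a.1 s = 0
      · exact hs (hb fun h => hne (by rw [h0, h]))
      · exact hs (ha h0)
  rw [Fintype.card_coe] at h1
  refine h1.trans ?_
  rw [Fintype.card_fun, Fintype.card_fin, Fintype.card_coe]

theorem Ag_sdiff_subset (e J : ℕ) (β : ν → ℕ) (j : ℕ) (W Bk : Finset ν) :
    Ag e J β j (W \ Bk) ⊆ Ag e J β j W := by
  intro a ha
  rw [mem_Ag] at ha ⊢
  exact ⟨ha.1, fun s hs => (mem_sdiff.mp (ha.2.1 s hs)).1, ha.2.2⟩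

theorem Ag_nb_subset {e J : ℕ} {β : ν → ℕ} {j : ℕ} {W Bk : Finset ν} (hj : J ≤ j)
    (hB : ∀ s ∈ Bk, j ≤ β s) : Ag e J (nb β j Bk) (j + 1) W ⊆ Ag e J β j W := by
  intro a ha
  rw [mem_Ag] at ha ⊢
  refine ⟨⟨ha.1.1, fun i hi => ?_⟩, ha.2.1, ?_⟩
  · obtain ⟨s, hs, h0⟩ := ha.1.2 i (by omega)
    exact ⟨s, (nb_lt hB hi).mp hs, h0⟩
  · have h1 : univ.filter (fun s => nb β j Bk s < J) = univ.filter fun s => β s < J :=
      filter_congr fun s _ => nb_lt_iff hB hj
    rw [← h1]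
    exact ha.2.2

theorem Ag_cover {e J : ℕ} {β : ν → ℕ} {j : ℕ} {W Bk : Finset ν} (hj : J ≤ j)
    (hB : ∀ s ∈ Bk, j ≤ β s) {a : ν → ℕ} (ha : a ∈ Ag e J β j W) :
    a ∈ Ag e J β j (W \ Bk) ∨ a ∈ Ag e J (nb β j Bk) (j + 1) W := by
  rw [mem_Ag] at ha
  by_cases h : ∃ s ∈ Bk, a s ≠ 0
  · right
    rw [mem_Ag]
    refine ⟨⟨ha.1.1, fun i hi => ?_⟩, ha.2.1, ?_⟩
    · rcases Nat.lt_succ_iff_lt_or_eq.mp hi with hi | hi
      · obtain ⟨s, hs, h0⟩ := ha.1.2 i hi
        exact ⟨s, (nb_lt hB hi).mpr hs, h0⟩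
      · obtain ⟨s, hs, h0⟩ := h
        exact ⟨s, by rw [hi]; exact nb_eq.mpr hs, h0⟩
    · have h1 : univ.filter (fun s => nb β j Bk s < J) = univ.filter fun s => β s < J :=
        filter_congr fun s _ => nb_lt_iff hB hj
      rw [h1]
      exact ha.2.2
  · left
    push Not at h
    rw [mem_Ag]
    exact ⟨ha.1, fun s hs => mem_sdiff.mpr ⟨ha.2.1 s hs, fun hsB => hs (h s hsB)⟩, ha.2.2⟩

theorem Ag_zero_of_mem {e J : ℕ} {β : ν → ℕ} {j : ℕ} {W Bk : Finset ν} {a : ν → ℕ}
    (ha : a ∈ Ag e J β j (W \ Bk)) : ∀ s ∈ Bk, a s = 0 := by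
  intro s hs
  by_contra h0
  exact (mem_sdiff.mp ((mem_Ag.mp ha).2.1 s h0)).2 hs

theorem exists_ne_of_not_mem {e J : ℕ} {β : ν → ℕ} {j : ℕ} {W Bk : Finset ν} {a : ν → ℕ}
    (ha : a ∈ Ag e J β j W) (h : a ∉ Ag e J β j (W \ Bk)) : ∃ s ∈ Bk, a s ≠ 0 := by
  by_contra hc
  push Not at hc
  apply h
  rw [mem_Ag] at ha ⊢
  exact ⟨ha.1, fun s hs => mem_sdiff.mpr ⟨ha.2.1 s hs, fun hsB => hs (hc s hsB)⟩, ha.2.2⟩

/-- The restriction of a form which is `M`-fold at a point of the subspace. -/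
theorem fat_trace {M e J : ℕ} {β : ν → ℕ} {j : ℕ} {W Bk : Finset ν} (I : Finset ℕ) (q : ν → ℂ)
    (f : {a // a ∈ Ag e J β j W} → ℂ)
    (h : Fat (fun e : {a // a ∈ Ag e J β j W} => e.1) M (msk β I (zb Bk q)) f) :
    Fat (fun e : {a // a ∈ Ag e J β j (W \ Bk)} => e.1) M (msk β I q)
      fun x => f ⟨x.1, Ag_sdiff_subset e J β j W Bk x.2⟩ := by
  intro b hb
  by_cases hbB : ∃ s ∈ Bk, b s ≠ 0
  · obtain ⟨s, hs, hb0⟩ := hbB
    refine sum_eq_zero fun x _ => ?_
    rw [tcr_zero_of s, mul_zero]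
    show (((x.1 s).choose (b s) : ℕ) : ℂ) * msk β I q s ^ (x.1 s - b s) = 0
    rw [Ag_zero_of_mem x.2 s hs, Nat.choose_eq_zero_of_lt (Nat.pos_of_ne_zero hb0), Nat.cast_zero,
      zero_mul]
  · push Not at hbB
    have h1 := sum_sub (Ag_sdiff_subset e J β j W Bk)
      (fun x : {a // a ∈ Ag e J β j W} => f x * tcr (msk β I (zb Bk q)) x.1 b) (by
        intro x he
        obtain ⟨s, hs, h0⟩ := exists_ne_of_not_mem x.2 he
        show f x * tcr (msk β I (zb Bk q)) x.1 b = 0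
        rw [tcr_zero_of s, mul_zero]
        have h2 : msk β I (zb Bk q) s = 0 := by
          unfold msk zb
          rw [if_pos hs]
          split_ifs <;> rfl
        rw [h2, hbB s hs, Nat.sub_zero, zero_pow h0, mul_zero])
    rw [← h b hb, ← h1]
    refine sum_congr rfl fun x _ => ?_
    show _ = f _ * tcr (msk β I (zb Bk q)) x.1 b
    congr 1
    unfold tcr
    refine prod_congr rfl fun s _ => ?_
    show (((x.1 s).choose (b s) : ℕ) : ℂ) * msk β I q s ^ (x.1 s - b s) =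
      (((x.1 s).choose (b s) : ℕ) : ℂ) * msk β I (zb Bk q) s ^ (x.1 s - b s)
    by_cases hs : s ∈ Bk
    · rw [Ag_zero_of_mem x.2 s hs, Nat.zero_sub, pow_zero, pow_zero]
    · congr 2
      unfold msk zb
      rw [if_neg hs]

/-- A form which vanishes on the subspace has its conditions on the remaining exponents. -/
theorem fat_res {M e J : ℕ} {β : ν → ℕ} {j : ℕ} {W Bk : Finset ν} (hj : J ≤ j)
    (hB : ∀ s ∈ Bk, j ≤ β s) (p : ν → ℂ) (f : {a // a ∈ Ag e J β j W} → ℂ)
    (h : Fat (fun e : {a // a ∈ Ag e J β j W} => e.1) M p f)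
    (h0 : ∀ x : {a // a ∈ Ag e J β j (W \ Bk)}, f ⟨x.1, Ag_sdiff_subset e J β j W Bk x.2⟩ = 0) :
    Fat (fun e : {a // a ∈ Ag e J (nb β j Bk) (j + 1) W} => e.1) M p
      fun x => f ⟨x.1, Ag_nb_subset hj hB x.2⟩ := by
  intro b hb
  rw [← h b hb]
  refine sum_sub (Ag_nb_subset hj hB)
      (fun x : {a // a ∈ Ag e J β j W} => f x * tcr p x.1 b) ?_
  intro x he
  show f x * tcr p x.1 b = 0
  rcases Ag_cover hj hB x.2 with h1 | h1
  · have h2 : f x = 0 := h0 ⟨x.1, h1⟩
    rw [h2, zero_mul]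
  · exact absurd h1 he

/-- The trace step: the points of `s` are put on the subspace where the variables of `Bk`
vanish. -/
theorem gM_trace {M e J : ℕ} {β : ν → ℕ} {j : ℕ} {W Bk : Finset ν} (hj : J ≤ j)
    (hB : ∀ s ∈ Bk, j ≤ β s) (s t : Multiset (Finset ℕ)) (hs : ∀ I ∈ s, I ⊆ range j)
    (ht : ∀ I ∈ t, I ⊆ range j) :
    gM (SG M β (Ag e J β j W)) (s + t) ≤ gM (SG M β (Ag e J β j (W \ Bk))) s +
      gM (SG M (nb β j Bk) (Ag e J (nb β j Bk) (j + 1) W)) (s.map (insert j) + t) := by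
  obtain ⟨m, hm, hmg⟩ := exists_conf (SG M β (Ag e J β j (W \ Bk))) s
  obtain ⟨n, hn, _⟩ := exists_conf (SG M β (Ag e J β j (W \ Bk))) t
  have hms : ∀ i, m i ⊆ range j := by
    intro i
    apply hs
    rw [← hm]
    exact Multiset.mem_map_of_mem m (mem_univ i)
  have hnt : ∀ i, n i ⊆ range j := by
    intro i
    apply ht
    rw [← hn]
    exact Multiset.mem_map_of_mem n (mem_univ i)
  have h1 := gd_trace (SG M β (Ag e J β j W)) (SG M β (Ag e J β j (W \ Bk)))
    (SG M (nb β j Bk) (Ag e J (nb β j Bk) (j + 1) W))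
    (fun x => ⟨x.1, Ag_sdiff_subset e J β j W Bk x.2⟩) (fun x => ⟨x.1, Ag_nb_subset hj hB x.2⟩)
    (by
      intro x
      rcases Ag_cover hj hB x.2 with h | h
      · exact Or.inl ⟨⟨x.1, h⟩, rfl⟩
      · exact Or.inr ⟨⟨x.1, h⟩, rfl⟩)
    id Function.injective_id (zb Bk) m (fun i => insert j (m i)) n
    (by
      intro i q f hf
      rw [mem_SG] at hf ⊢
      exact fun u => fat_trace (m i) q f (hf u))
    (by
      intro i q f hf h0
      rw [mem_SG] at hf ⊢
      intro u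
      rw [msk_nb_insert hB (hms i)]
      exact fat_res hj hB _ f (hf u) h0)
    (by
      intro i q f hf h0
      rw [mem_SG] at hf ⊢
      intro u
      rw [msk_nb hB (hnt i)]
      exact fat_res hj hB _ f (hf u) h0)
  rw [gd_eq_gM, gd_eq_gM, gd_eq_gM, map_elim, map_elim, hm, hn] at h1
  have h2 : (univ : Finset (Fin s.toList.length)).val.map (fun i => insert j (m i)) =
      s.map (insert j) := by
    have h3 := congrArg (Multiset.map (insert j)) hm
    rw [Multiset.map_map] at h3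
    exact h3
  rw [h2] at h1
  exact h1

/-- The types of the level `j` which are used. -/
def Good (e J j : ℕ) (I : Finset ℕ) : Prop :=
  I ⊆ range j ∧ j + 1 ≤ I.card + e ∧ ¬ range J ⊆ I

/-- Every nonzero form violates the conditions of a point of one of the smallest types. -/
theorem exists_type {e J j : ℕ} (he : 2 ≤ e) {β : ν → ℕ} {W : Finset ν} (hj : J ≤ j)
    (hj2 : j < e + J) (F : {a // a ∈ Ag e J β j W} → ℂ) (hF : F ≠ 0) :
    ∃ I ∈ {I : Finset ℕ | Good e J j I ∧ I.card = j + 1 - e}, ∃ q : ν → ℂ,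
      F ∉ (SG (J + 1) β (Ag e J β j W)).V (fun _ : Unit => I) fun _ => q := by
  classical
  obtain ⟨a, ha⟩ := Function.ne_iff.mp hF
  have hA := mem_Ag.mp a.2
  obtain ⟨⟨hdeg, hmeet⟩, hW, hx⟩ := hA
  -- a block of degree at least two
  have h0 : ∃ i₀ < J, 2 ≤ ∑ s ∈ univ.filter (fun s => β s = i₀), a.1 s := by
    by_contra hc
    push Not at hc
    have h1 : ∑ s ∈ univ.filter (fun s => β s < J), a.1 s =
        ∑ i ∈ range J, ∑ s ∈ (univ.filter (fun s => β s < J)).filter (fun s => β s = i),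
          a.1 s :=
      (sum_fiberwise_of_maps_to (fun s hs => mem_range.mpr (mem_filter.mp hs).2) _).symm
    have h2 : ∑ i ∈ range J, ∑ s ∈ (univ.filter (fun s => β s < J)).filter
        (fun s => β s = i), a.1 s ≤ ∑ i ∈ range J, 1 := by
      refine sum_le_sum fun i hi => ?_
      have h3 := hc i (mem_range.mp hi)
      have h4 : (univ.filter (fun s => β s < J)).filter (fun s => β s = i) =
          univ.filter fun s => β s = i := by
        ext s
        simp only [mem_filter, mem_univ, true_and]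
        have := mem_range.mp hi
        constructor
        · exact fun h => h.2
        · exact fun h => ⟨by omega, h⟩
      rw [h4]
      omega
    rw [sum_const, card_range, smul_eq_mul, mul_one] at h2
    omega
  obtain ⟨i₀, hi₀, h2⟩ := h0
  have hi₀j : i₀ ∈ range j := mem_range.mpr (by omega)
  obtain ⟨I, hI, hIc⟩ := exists_subset_card_eq (s := (range j).erase i₀) (n := j + 1 - e) (by
    rw [card_erase_of_mem hi₀j, card_range]
    omega)
  have hI₀ : i₀ ∉ I := fun h => (mem_erase.mp (hI h)).1 rfl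
  have hIj : I ⊆ range j := fun i hi => (mem_erase.mp (hI hi)).2
  have hd : ∑ s ∈ univ.filter (fun s => β s ∈ I), a.1 s < J + 1 := by
    by_cases hje : j + 1 ≤ e
    · have h3 : I = ∅ := card_eq_zero.mp (by omega)
      rw [h3]
      simp
    have h3 := card_le_deg β a.1 (((range j) \ I).erase i₀) fun i hi =>
      hmeet i (mem_range.mp (mem_sdiff.mp (mem_erase.mp hi).2).1)
    have h4 : (((range j) \ I).erase i₀).card + (j + 1 - e) + 1 = j := by
      rw [card_erase_of_mem (mem_sdiff.mpr ⟨hi₀j, hI₀⟩), card_sdiff_of_subset hIj, card_range, hIc]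
      have : 1 ≤ j - (j + 1 - e) := by omega
      omega
    have h5 : ∑ s ∈ univ.filter (fun s => β s ∈ I), a.1 s +
        ∑ s ∈ univ.filter (fun s => β s ∈ ((range j) \ I).erase i₀), a.1 s +
        ∑ s ∈ univ.filter (fun s => β s = i₀), a.1 s ≤ ∑ s, a.1 s := by
      rw [← sum_union, ← sum_union]
      · exact sum_le_sum_of_subset (subset_univ _)
      · rw [disjoint_left]
        intro s hs hs'
        rw [mem_filter] at hs'
        rw [mem_union, mem_filter, mem_filter] at hs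
        rcases hs with hs | hs
        · exact hI₀ (by rw [← hs'.2]; exact hs.2)
        · exact (mem_erase.mp hs.2).1 hs'.2
      · rw [disjoint_left]
        intro s hs hs'
        rw [mem_filter] at hs hs'
        exact (mem_sdiff.mp (mem_erase.mp hs'.2).2).2 hs.2
    omega
  obtain ⟨q, hq⟩ := exists_not_mem I F a ha hd
  refine ⟨I, ⟨⟨hIj, by omega, fun h => hI₀ (h (mem_range.mpr hi₀))⟩, hIc⟩, q, hq⟩

end Pool.Agent.GD.GA
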