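import Pool.Agent.GD.GA.Ind
import Pool.Agent.GD.Defs

/-!
# General d, block GAMMA: the result with numbers

On the level `J = d - e` no nonzero form which satisfies the conditions of many general points of the kinds
`ord e A`, `A ≠ {0, …, J - 1}`, `|A| + e ≥ J + 1`, has all its coefficients of degree `J` in the blocks
`0, …, J - 1` equal to zero.
-/

set_option autoImplicit false
set_option linter.unusedSectionVars false

namespace Pool.Agent.GD.GA

open Finset MvPolynomial Pool.Agent.H51.TB Pool.Agent.H54.V7 Pool.Agent.V7.ST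
open Pool.Agent.V7 (msk)
open Pool.Agent.V7.GA (SG mem_SG sum_sub gM_anti card_le_deg)
open Pool.Agent.H18.Ex (tcr)

/-- The conditions of an ordinary point. -/
theorem fat_of_mem {ν : Type} [Fintype ν] [DecidableEq ν] {d D : ℕ} {β : ν → ℕ} {I : Finset ℕ}
    {A : Finset (ν → ℕ)} {ι : Type} {m : ι → Kd} {p : ι → ν × Fin (d + 1) → ℂ}
    {f : {a // a ∈ A} → ℂ} (hf : f ∈ (LSA d D β I A).V m p) {i : ι} {e : ℕ} {S : Finset ℕ}
    (hi : m i = Kd.ord e S) :
    Fat (fun x : {a // a ∈ A} => x.1) (D + 1 - e) (msk β S fun s => p i (s, 0)) f := by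
  rw [Sys.mem_V] at hf
  have h1 := hf i
  rw [hi] at h1
  intro b hb
  have h2 := h1 (Sum.inl (⟨(0, b), by
    show (0 : ℕ) < 1
    omega, by
    show ∑ s, b s + e ≤ D
    omega⟩ : Ra d D ν (Kd.ord e S)))
  rw [← h2]
  refine sum_congr rfl fun x _ => ?_
  have h3 : eval (p i) (tcr (msk β S fun s => (X (s, 0) : MvPolynomial (ν × Fin (d + 1)) ℂ))
      x.1 b) = tcr (msk β S fun s => p i (s, 0)) x.1 b := by
    unfold tcr
    rw [map_prod]
    refine prod_congr rfl fun s _ => ?_
    rw [map_mul, map_pow, map_natCast]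
    congr 2
    unfold msk
    split_ifs
    · rw [map_zero]
    · rw [eval_X]
  show _ = eval (p i) (tcr (msk β S fun s => (X (s, 0) : MvPolynomial (ν × Fin (d + 1)) ℂ))
      x.1 b) * f x
  rw [h3, mul_comm]

/-- **GAMMA** with numbers: `nn κ q t`, `t = |A| + e - (J + 1)`, ordinary points of each kind
`ord e A`, `A ⊂ range J`, `J + 1 ≤ |A| + e`, suffice. -/
theorem gamma_gn {d e J : ℕ} (he : 2 ≤ e) (hd : d = e + J) (c : ℕ) : ∃ κ : ℕ,
    ∀ (ν : Type) [Fintype ν] [DecidableEq ν]
    (β : ν → ℕ), (∀ i < J, (univ.filter fun s => β s = i).card ≤ c) →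
    ∀ q : ℕ, Fintype.card ν < (q + 1) * c → ∀ (ι : Type) [Fintype ι] (m : ι → Kd),
    (∀ A, A ⊂ range J → J + 1 ≤ A.card + e → nn κ q (A.card + e - (J + 1)) ≤
      ((univ : Finset ι).val.map m).count (Kd.ord e A)) →
    Gn ι (ν × Fin (d + 1)) fun p => ∀ f ∈ (LS d d β (range J)).V m p,
      (∀ x : {a // a ∈ Ex β d (range J)},
        ∑ s ∈ univ.filter (fun s => β s < J), x.1 s = J → f x = 0) → f = 0 := by
  classical
  subst hd
  obtain ⟨κ, hκ⟩ := exists_pp (J := J) c he e J (by omega) le_rfl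
  refine ⟨κ, fun ν _ _ β hβ q hq ι _ m hm => ?_⟩
  -- the points which are used
  let ι' := {i : ι // ∃ I, I ⊆ range J ∧ m i = Kd.ord e I}
  have hch : ∀ i : ι', ∃ I, I ⊆ range J ∧ m i.1 = Kd.ord e I := fun i => i.2
  choose m' hm' hmm' using hch
  have hcount : ∀ I, I ⊆ range J → ((univ : Finset ι').val.map m').count I =
      ((univ : Finset ι).val.map m).count (Kd.ord e I) := by
    intro I hI
    rw [Multiset.count_map, Multiset.count_map, ← Finset.filter_val, ← Finset.filter_val,
      Finset.card_val, Finset.card_val]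
    refine card_bij (fun i _ => i.1) ?_ ?_ ?_
    · intro i hi
      rw [mem_filter] at hi ⊢
      refine ⟨mem_univ _, ?_⟩
      rw [hmm' i, ← hi.2]
    · intro i _ j _ hij
      exact Subtype.ext hij
    · intro i hi
      rw [mem_filter] at hi
      refine ⟨⟨i, I, hI, hi.2.symm⟩, ?_, rfl⟩
      rw [mem_filter]
      refine ⟨mem_univ _, ?_⟩
      have h1 := hmm' ⟨i, I, hI, hi.2.symm⟩
      exact (Kd.ord.inj (hi.2.trans h1)).2
  have h1 := hκ ν β univ q (fun i hi => hβ i hi) (lt_of_le_of_lt (card_le_univ _) hq)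
    ((univ : Finset ι').val.map m') (by
      intro I hI
      obtain ⟨i, _, rfl⟩ := Multiset.mem_map.mp hI
      exact hm' i) (by
      intro I hI
      rw [hcount I hI.1]
      exact hm I ⟨hI.1, hI.2.2⟩ hI.2.1)
  rw [← gd_eq_gM] at h1
  have h2 := gn_pull (κ := ι) (fun i : ι' => i.1) Subtype.val_injective
    (fun s : ν => (s, (0 : Fin (e + J + 1)))) (fun s t hst => (Prod.mk.inj hst).1)
    (gn_gd (SG (J + 1) β (Ag e J β J univ)) m')
  refine h2.mono fun p hp f hf h0 => ?_
  rw [h1] at hp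
  have hbot := Submodule.finrank_eq_zero.mp hp
  have hsub : Ag e J β J univ ⊆ Ex β (e + J) (range J) := by
    intro a ha
    rw [mem_Ag] at ha
    rw [mem_Ex]
    exact ⟨ha.1.1, fun i hi => ha.1.2 i (mem_range.mp hi)⟩
  -- the coefficients which do not belong to `Ag` vanish
  have hz : ∀ x : {a // a ∈ Ex β (e + J) (range J)}, x.1 ∉ Ag e J β J univ → f x = 0 := by
    intro x hx
    apply h0
    have h3 := mem_Ex.mp x.2
    have h4 : ¬ J + 1 ≤ ∑ s ∈ univ.filter (fun s => β s < J), x.1 s := by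
      intro h
      apply hx
      rw [mem_Ag]
      exact ⟨⟨h3.1, fun i hi => h3.2 i (mem_range.mpr hi)⟩, fun s _ => mem_univ s, h⟩
    have h5 := card_le_deg β x.1 (range J) fun i hi => h3.2 i hi
    have h6 : univ.filter (fun s => β s ∈ range J) = univ.filter fun s => β s < J :=
      filter_congr fun s _ => mem_range
    rw [h6, card_range] at h5
    omega
  have hmem : (fun x : {a // a ∈ Ag e J β J univ} => f ⟨x.1, hsub x.2⟩) ∈
      (SG (J + 1) β (Ag e J β J univ)).V m' fun i s => p i.1 (s, 0) := by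
    rw [mem_SG]
    intro i b hb
    have h3 := fat_of_mem hf (hmm' i)
    have h4 : e + J + 1 - e = J + 1 := by omega
    rw [h4] at h3
    rw [← h3 b hb]
    exact sum_sub hsub (fun x : {a // a ∈ Ex β (e + J) (range J)} => f x *
      tcr (msk β (m' i) fun s => p i.1 (s, 0)) x.1 b) fun x hx => by
        show f x * _ = 0
        rw [hz x hx, zero_mul]
  rw [hbot, Submodule.mem_bot] at hmem
  funext x
  by_cases hx : x.1 ∈ Ag e J β J univ
  · exact congrFun hmem ⟨x.1, hx⟩
  · exact hz x hx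

/-- A bound for the numbers: `nn κ q t` is at most a constant times `(q + 1) ^ t`. -/
theorem nn_le (κ q t : ℕ) : nn κ q t ≤ κ * (t + 1) ^ t * (q + 1) ^ t := by
  unfold nn
  rw [mul_assoc, ← mul_pow]
  refine Nat.mul_le_mul_left _ ((Nat.choose_le_pow _ _).trans (Nat.pow_le_pow_left ?_ _))
  nlinarith [Nat.zero_le (t * q)]

end Pool.Agent.GD.GA
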